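import Pool.Agent.H22.AN.TB3
import Pool.Agent.H80.AN.TargetsA

/-! The Hessian bound in all dimensions (MP_2697e3_an): the second moment about the graph is controlled
by the beta number (row CMP). -/

set_option autoImplicit false
set_option linter.unusedVariables false

namespace Pool.Agent.H13.ANC

open MeasureTheory Metric Set Filter Topology Pool.Agent.H87.SN Pool.Agent.H87.SH
  Pool.Agent.H87.AX Pool.Agent.H22.AN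
open scoped ContDiff RealInnerProductSpace ENNReal

noncomputable section

/-! ### Coordinates -/

theorem norm_sq_V {d : ℕ} (y : V d) : ‖y‖ ^ 2 = y 0 ^ 2 + y 1 ^ 2 + ‖zp y‖ ^ 2 := by
  rw [EuclideanSpace.norm_sq_eq, EuclideanSpace.norm_sq_eq, Fin.sum_univ_succ, Fin.sum_univ_succ,
    ← add_assoc]
  simp [zp, sq_abs]

theorem zp_le {d : ℕ} (y : V d) : ‖zp y‖ ≤ ‖y‖ := by
  have h2 := norm_sq_V y
  refine le_of_sq_le_sq ?_ (norm_nonneg _)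
  nlinarith [sq_nonneg (y 0), sq_nonneg (y 1)]

theorem zp_sub {d : ℕ} (x y : V d) : zp (x - y) = zp x - zp y := by
  ext i
  simp [zp]

theorem rho_nonneg {d : ℕ} (y : V d) : 0 ≤ rho y := Real.sqrt_nonneg _

theorem rho_sq {d : ℕ} {x : V d} {b : ℝ} (h : rho x ≤ b) : x 0 ^ 2 + x 1 ^ 2 ≤ b ^ 2 := by
  have hb : 0 ≤ b := (rho_nonneg x).trans h
  unfold rho at h
  exact (Real.sqrt_le_left hb).1 h

theorem sq_abs_le {a b B : ℝ} (hB : 0 ≤ B) (h : a ^ 2 + b ^ 2 ≤ B ^ 2) : |a| ≤ B ∧ |b| ≤ B := by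
  constructor
  · exact abs_le_of_sq_le_sq (by linarith [sq_nonneg b]) hB
  · exact abs_le_of_sq_le_sq (by linarith [sq_nonneg a]) hB

theorem nsq_nn {d m : ℕ} (T : V d →L[ℝ] E m) : 0 ≤ nsq T :=
  Finset.sum_nonneg fun _ _ => sq_nonneg _

theorem hd_nn {d : ℕ} (y0 y1 : ℝ) (s0 s1 : E d) (x : V d) : 0 ≤ hd y0 y1 s0 s1 x := by
  unfold hd
  positivity

theorem zp_cont {d : ℕ} : Continuous (fun x : V d => zp x) := by
  have h1 : LipschitzWith 1 (fun x : V d => zp x) :=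
    LipschitzWith.of_dist_le_mul fun x y => by
      rw [dist_eq_norm, dist_eq_norm, ← zp_sub, NNReal.coe_one, one_mul]
      exact zp_le _
  exact h1.continuous

theorem hd_cont {d : ℕ} (y0 y1 : ℝ) (s0 s1 : E d) : Continuous (fun y => hd y0 y1 s0 s1 y) := by
  unfold hd
  have h1 : Continuous (fun x : V d => ⟪s0, zp x⟫) := continuous_const.inner zp_cont
  have h2 : Continuous (fun x : V d => ⟪s1, zp x⟫) := continuous_const.inner zp_cont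
  fun_prop

theorem dl_cont {d : ℕ} (a ν₁ ν₂ : V d) : Continuous (fun y => dl a ν₁ ν₂ y) := by
  unfold dl
  fun_prop

/-! ### Geometry -/

theorem hd_le {d : ℕ} {x x' : V d} {y0 y1 t : ℝ} {s0 s1 : E d} (ht : 0 < t) (ht8 : t ≤ 1 / 8)
    (hys : |y0| + |y1| + ‖s0‖ + ‖s1‖ ≤ t) (hx' : rho x' ≤ t / 4) (hz : ‖zp x'‖ ≤ 1 / 4)
    (hx : x ∈ ball x' (6 * t)) :
    ‖zp x - zp x'‖ ≤ 8 * t ∧ hd y0 y1 s0 s1 x ≤ 128 * t ^ 2 := by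
  rw [mem_ball, dist_eq_norm] at hx
  have g1 : ‖zp x - zp x'‖ ≤ 6 * t := by
    rw [← zp_sub]
    exact (zp_le _).trans hx.le
  obtain ⟨g2, g3⟩ := sq_abs_le (by positivity) (rho_sq hx')
  have g4 := norm_sq_V (x - x')
  have g5 : (x - x') 0 = x 0 - x' 0 := rfl
  have g6 : (x - x') 1 = x 1 - x' 1 := rfl
  have g7 : (x 0 - x' 0) ^ 2 + (x 1 - x' 1) ^ 2 ≤ (6 * t) ^ 2 := by
    have g8 : ‖x - x'‖ ^ 2 ≤ (6 * t) ^ 2 := pow_le_pow_left₀ (norm_nonneg _) hx.le 2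
    rw [g4, g5, g6] at g8
    linarith [sq_nonneg ‖zp (x - x')‖]
  obtain ⟨k0, k1⟩ := sq_abs_le (by positivity) g7
  have l0 : |x 0| ≤ 25 / 4 * t := by
    have := abs_add_le (x 0 - x' 0) (x' 0)
    rw [sub_add_cancel] at this
    linarith
  have l1 : |x 1| ≤ 25 / 4 * t := by
    have := abs_add_le (x 1 - x' 1) (x' 1)
    rw [sub_add_cancel] at this
    linarith
  have l2 : ‖zp x‖ ≤ 1 := by
    have := norm_add_le (zp x - zp x') (zp x')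
    rw [sub_add_cancel] at this
    linarith
  have key : ∀ (u y : ℝ) (s : E d), |u| ≤ 25 / 4 * t → |y| + ‖s‖ ≤ t →
      (u - (y + ⟪s, zp x⟫)) ^ 2 ≤ 64 * t ^ 2 := by
    intro u y s hu hy
    have e1 : |⟪s, zp x⟫| ≤ ‖s‖ := by
      refine (abs_real_inner_le_norm _ _).trans ?_
      calc ‖s‖ * ‖zp x‖ ≤ ‖s‖ * 1 := by gcongr
        _ = ‖s‖ := mul_one _
    have e2 : |u - (y + ⟪s, zp x⟫)| ≤ 8 * t := by
      have e3 := abs_sub u (y + ⟪s, zp x⟫)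
      have e4 := abs_add_le y ⟪s, zp x⟫
      linarith
    have e5 : (u - (y + ⟪s, zp x⟫)) ^ 2 ≤ (8 * t) ^ 2 := by
      rw [← sq_abs]
      exact pow_le_pow_left₀ (abs_nonneg _) e2 2
    linarith [show (8 * t) ^ 2 = 64 * t ^ 2 by ring]
  refine ⟨by linarith, ?_⟩
  have n0 := norm_nonneg s0
  have n1 := norm_nonneg s1
  have m0 := abs_nonneg y0
  have m1 := abs_nonneg y1
  have r0 := key (x 0) y0 s0 l0 (by linarith)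
  have r1 := key (x 1) y1 s1 l1 (by linarith)
  unfold hd
  linarith

theorem sub_ball {d : ℕ} {x x' : V d} {z₀ : E d} {t : ℝ} (ht : 0 < t) (h1 : rho x ≤ 2 * t)
    (h2 : rho x' ≤ t / 4) (h3 : ‖zp x - z₀‖ < t / 4) (h4 : ‖z₀ - zp x'‖ ≤ t) :
    x ∈ ball x' (8 * t) := by
  rw [mem_ball, dist_eq_norm]
  have h5 := norm_sq_V (x - x')
  have h6 : (x - x') 0 = x 0 - x' 0 := rfl
  have h7 : (x - x') 1 = x 1 - x' 1 := rfl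
  rw [h6, h7, zp_sub] at h5
  obtain ⟨a0, a1⟩ := sq_abs_le (by positivity) (rho_sq h1)
  obtain ⟨b0, b1⟩ := sq_abs_le (by positivity) (rho_sq h2)
  have c0 : |x 0 - x' 0| ≤ 9 / 4 * t := by
    have := abs_sub (x 0) (x' 0)
    linarith
  have c1 : |x 1 - x' 1| ≤ 9 / 4 * t := by
    have := abs_sub (x 1) (x' 1)
    linarith
  have c2 : ‖zp x - zp x'‖ ≤ 5 / 4 * t := by
    have := norm_add_le (zp x - z₀) (z₀ - zp x')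
    rw [sub_add_sub_cancel] at this
    linarith
  have d0 : (x 0 - x' 0) ^ 2 ≤ (9 / 4 * t) ^ 2 := by
    rw [← sq_abs]
    exact pow_le_pow_left₀ (abs_nonneg _) c0 2
  have d1 : (x 1 - x' 1) ^ 2 ≤ (9 / 4 * t) ^ 2 := by
    rw [← sq_abs]
    exact pow_le_pow_left₀ (abs_nonneg _) c1 2
  have d2 : ‖zp x - zp x'‖ ^ 2 ≤ (5 / 4 * t) ^ 2 := pow_le_pow_left₀ (norm_nonneg _) c2 2
  have h9 : ‖x - x'‖ ^ 2 < (8 * t) ^ 2 := by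
    have h10 : 0 < t ^ 2 := by positivity
    linarith [show (9 / 4 * t) ^ 2 = 81 / 16 * t ^ 2 by ring,
      show (5 / 4 * t) ^ 2 = 25 / 16 * t ^ 2 by ring, show (8 * t) ^ 2 = 64 * t ^ 2 by ring]
  exact (pow_lt_pow_iff_left₀ (norm_nonneg _) (by positivity) two_ne_zero).1 h9

/-! ### Arithmetic -/

/-- the constant -/
def CC (d : ℕ) (Λ CJ CA c1 q0 : ℝ) : ℝ :=
  5 + CA + 128 * Λ * 6 ^ d / c1 ^ 2 + 128 * Λ * 6 ^ d / q0 + 2 * CA * CJ * 4 ^ d * Λ * 6 ^ d +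
    2 * CA * CJ ^ 2 * Λ * 6 ^ d

theorem CC_facts {d : ℕ} {Λ CJ CA c1 q0 : ℝ} (hΛ : 0 < Λ) (hCJ : 0 ≤ CJ) (hCA : 1 ≤ CA)
    (hc1 : 0 < c1) (hq0 : 0 < q0) :
    1 ≤ CC d Λ CJ CA c1 q0 ∧ CA ≤ CC d Λ CJ CA c1 q0 ∧ 4 + 2 * CA * CJ * 4 ^ d * Λ * 6 ^ d ≤
      CC d Λ CJ CA c1 q0 ∧ 2 * CA * CJ ^ 2 * Λ * 6 ^ d ≤ CC d Λ CJ CA c1 q0 ∧
      128 * Λ * 6 ^ d / c1 ^ 2 ≤ CC d Λ CJ CA c1 q0 ∧
      128 * Λ * 6 ^ d / q0 ≤ CC d Λ CJ CA c1 q0 := by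
  have hCA0 : 0 < CA := by linarith
  have h1 : 0 ≤ 128 * Λ * 6 ^ d / c1 ^ 2 := by positivity
  have h2 : 0 ≤ 128 * Λ * 6 ^ d / q0 := by positivity
  have h3 : 0 ≤ 2 * CA * CJ * 4 ^ d * Λ * 6 ^ d := by positivity
  have h4 : 0 ≤ 2 * CA * CJ ^ 2 * Λ * 6 ^ d := by positivity
  unfold CC
  refine ⟨?_, ?_, ?_, ?_, ?_, ?_⟩ <;> linarith

theorem caseJ {d : ℕ} {Λ c1 q t J C A : ℝ} (hΛ : 0 < Λ) (hc1 : 0 < c1) (ht : 0 < t) (hq : 0 ≤ q)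
    (hC : 0 ≤ C) (hCC : 128 * Λ * 6 ^ d / c1 ^ 2 ≤ C) (hJ : c1 * t ≤ J)
    (hA : A ≤ 128 * t ^ 2 * (Λ * (6 * t) ^ d)) : A ≤ C * (q + t ^ d * J ^ 2) := by
  have h1 : (c1 * t) ^ 2 ≤ J ^ 2 := pow_le_pow_left₀ (by positivity) hJ 2
  calc A ≤ 128 * t ^ 2 * (Λ * (6 * t) ^ d) := hA
    _ = 128 * Λ * 6 ^ d / c1 ^ 2 * (t ^ d * (c1 * t) ^ 2) := by
        rw [mul_pow, mul_pow]
        field_simp
    _ ≤ C * (t ^ d * J ^ 2) := by gcongr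
    _ ≤ C * (q + t ^ d * J ^ 2) := by gcongr; linarith

theorem caseQ {d : ℕ} {Λ q0 q t J C A : ℝ} (hΛ : 0 < Λ) (hq0 : 0 < q0) (ht : 0 < t)
    (hC : 0 ≤ C) (hCC : 128 * Λ * 6 ^ d / q0 ≤ C) (hq : q0 * t ^ (d + 2) ≤ q)
    (hA : A ≤ 128 * t ^ 2 * (Λ * (6 * t) ^ d)) : A ≤ C * (q + t ^ d * J ^ 2) := by
  calc A ≤ 128 * t ^ 2 * (Λ * (6 * t) ^ d) := hA
    _ = 128 * Λ * 6 ^ d / q0 * (q0 * t ^ (d + 2)) := by
        rw [mul_pow, pow_add]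
        field_simp
    _ ≤ C * q := by gcongr
    _ ≤ C * (q + t ^ d * J ^ 2) := by
        gcongr
        have : 0 ≤ t ^ d * J ^ 2 := by positivity
        linarith

theorem eta_le {d : ℕ} {CJ CA c1 q0 q t J : ℝ} (hCJ : 0 ≤ CJ) (hCA : 1 ≤ CA)
    (hc1 : CJ * c1 ≤ 1 / (2 * CA)) (hq0 : CJ * 4 ^ d * q0 ≤ (1 / (2 * CA)) ^ 2) (ht : 0 < t)
    (hJ : J ≤ c1 * t) (hq : q ≤ q0 * t ^ (d + 2)) :
    CA * (√(CJ * 4 ^ d * q / t ^ d) + CJ * J) ≤ t := by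
  have hCA0 : 0 < CA := by linarith
  have h1 : √(CJ * 4 ^ d * q / t ^ d) ≤ t / (2 * CA) := by
    rw [Real.sqrt_le_left (by positivity), div_le_iff₀ (by positivity)]
    calc CJ * 4 ^ d * q ≤ CJ * 4 ^ d * (q0 * t ^ (d + 2)) := by gcongr
      _ = CJ * 4 ^ d * q0 * t ^ 2 * t ^ d := by rw [pow_add]; ring
      _ ≤ (1 / (2 * CA)) ^ 2 * t ^ 2 * t ^ d := by gcongr
      _ = (t / (2 * CA)) ^ 2 * t ^ d := by ring
  have h2 : CJ * J ≤ t / (2 * CA) := by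
    calc CJ * J ≤ CJ * (c1 * t) := by gcongr
      _ = CJ * c1 * t := by ring
      _ ≤ 1 / (2 * CA) * t := by gcongr
      _ = t / (2 * CA) := by ring
  calc CA * (√(CJ * 4 ^ d * q / t ^ d) + CJ * J) ≤ CA * (t / (2 * CA) + t / (2 * CA)) := by
        gcongr
    _ = t := by field_simp; ring

theorem fin3 {d : ℕ} {Λ CJ CA q q6 M t J C A : ℝ} (hΛ : 0 < Λ) (hCJ : 0 ≤ CJ) (hCA : 1 ≤ CA)
    (ht : 0 < t) (hq : 0 ≤ q) (hJ : 0 ≤ J) (h6 : q6 ≤ q) (hM0 : 0 ≤ M)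
    (hM : M ≤ Λ * (6 * t) ^ d)
    (hC1 : 4 + 2 * CA * CJ * 4 ^ d * Λ * 6 ^ d ≤ C) (hC2 : 2 * CA * CJ ^ 2 * Λ * 6 ^ d ≤ C)
    (hA : A ≤ 4 * q6 + CA * (√(CJ * 4 ^ d * q / t ^ d) + CJ * J) ^ 2 * M) :
    A ≤ C * (q + t ^ d * J ^ 2) := by
  have hCA0 : 0 < CA := by linarith
  have h1 : (√(CJ * 4 ^ d * q / t ^ d) + CJ * J) ^ 2 ≤
      2 * (CJ * 4 ^ d * q / t ^ d) + 2 * (CJ ^ 2 * J ^ 2) := by
    have h2 : √(CJ * 4 ^ d * q / t ^ d) ^ 2 = CJ * 4 ^ d * q / t ^ d :=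
      Real.sq_sqrt (by positivity)
    have h3 := sq_nonneg (√(CJ * 4 ^ d * q / t ^ d) - CJ * J)
    nlinarith
  have h4 : CA * (√(CJ * 4 ^ d * q / t ^ d) + CJ * J) ^ 2 * M ≤
      CA * (2 * (CJ * 4 ^ d * q / t ^ d) + 2 * (CJ ^ 2 * J ^ 2)) * (Λ * (6 * t) ^ d) := by
    gcongr
  have h5 : CA * (2 * (CJ * 4 ^ d * q / t ^ d) + 2 * (CJ ^ 2 * J ^ 2)) * (Λ * (6 * t) ^ d) =
      2 * CA * CJ * 4 ^ d * Λ * 6 ^ d * q + 2 * CA * CJ ^ 2 * Λ * 6 ^ d * (t ^ d * J ^ 2) := by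
    rw [mul_pow]
    field_simp
  have h6' : 0 ≤ t ^ d * J ^ 2 := by positivity
  have h7 : (4 + 2 * CA * CJ * 4 ^ d * Λ * 6 ^ d) * q ≤ C * q := by gcongr
  have h8 : 2 * CA * CJ ^ 2 * Λ * 6 ^ d * (t ^ d * J ^ 2) ≤ C * (t ^ d * J ^ 2) := by gcongr
  linarith

/-- the inequality for one plane -/
theorem main (hMUF : T_MUF) (hBTF : T_BTF) {d : ℕ} {Λ c CJ CA c1 q0 : ℝ} (hΛ : 0 < Λ)
    (hCJ : 0 ≤ CJ) (hCA : 1 ≤ CA) (hc1 : 0 < c1) (hq0 : 0 < q0) (hc1c : c1 ≤ 4 * c)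
    (hc1J : CJ * c1 ≤ 1 / (2 * CA)) (hq0J : CJ * 4 ^ d * q0 ≤ (1 / (2 * CA)) ^ 2)
    (hALG : ∀ (a ν₁ ν₂ : V d) (y0 y1 : ℝ) (s0 s1 : E d)
      (c : Option (Fin d) → V d) (z' : E d) (t η : ℝ), ON ν₁ ν₂ → 0 < t → t ≤ 1 → 0 ≤ η →
      CA * η ≤ t → |y0| + |y1| + ‖s0‖ + ‖s1‖ ≤ 1 / CA →
      (∀ o, |⟪c o - a, ν₁⟫| ≤ η ∧ |⟪c o - a, ν₂⟫| ≤ η) →
      (∀ o, hd y0 y1 s0 s1 (c o) ≤ η ^ 2) → ‖zp (c none) - z'‖ ≤ η →
      (∀ i : Fin d, ‖zp (c (some i)) - (z' + t • bv i)‖ ≤ η) →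
      (‖zp ν₁‖ ≤ CA * (η / t + ‖s0‖ + ‖s1‖) ∧ ‖zp ν₂‖ ≤ CA * (η / t + ‖s0‖ + ‖s1‖)) ∧
      ∀ x : V d, ‖zp x - z'‖ ≤ 8 * t → hd y0 y1 s0 s1 x ≤ 4 * dl a ν₁ ν₂ x + CA * η ^ 2)
    (hJEN : ∀ (m : ℕ) (G : V d → V d →L[ℝ] E m),
      MemLp G 2 (volume.restrict (ball (0 : V d) 2)) →
      ∀ (h R J mb y0 y1 : ℝ) (s0 s1 : E d), 0 < h → h ≤ 1 / 64 → 0 ≤ J → J ≤ c / 2 → c ≤ mb →
      R ≤ 1 / 4 → |y0| + |y1| + ‖s0‖ + ‖s1‖ ≤ 1 → Cen G h R J mb y0 y1 s0 s1 →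
      ∀ (z₀ : E d) (t : ℝ), h / 8 ≤ t → t ≤ 1 / 16 → ‖z₀‖ ≤ R → ∃ c₀ : V d,
      hd y0 y1 s0 s1 c₀ ≤ (CJ * J) ^ 2 ∧ ‖zp c₀ - z₀‖ ≤ CJ * J ∧
      ∀ (a ν₁ ν₂ : V d), ON ν₁ ν₂ → ENNReal.ofReal (dl a ν₁ ν₂ c₀) ≤ ENNReal.ofReal (CJ / t ^ d) *
        ∫⁻ x in {x : V d | rho x < 2 * h ∧ ‖zp x - z₀‖ < t},
          ENNReal.ofReal (dl a ν₁ ν₂ x) ∂(mu G))
    (m : ℕ) (G : V d → V d →L[ℝ] E m) (hG : GD Λ G) (h R J mb y0 y1 : ℝ) (s0 s1 : E d)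
    (hh : 0 < h) (hh2 : h ≤ 1 / 64) (hR : R ≤ 1 / 4) (hJ : 0 ≤ J) (hmb : c ≤ mb)
    (hys : |y0| + |y1| + ‖s0‖ + ‖s1‖ ≤ h / CC d Λ CJ CA c1 q0) (hCen : Cen G h R J mb y0 y1 s0 s1)
    (x' : V d) (t : ℝ) (hht : h ≤ t) (ht8 : t ≤ 1 / 8) (hx' : rho x' ≤ t / 4)
    (hx2 : ‖zp x'‖ + t ≤ R) (hsub : ball x' (8 * t) ⊆ ball 0 2) (a ν₁ ν₂ : V d)
    (hON : ON ν₁ ν₂) :
    ∫⁻ x in ball x' (6 * t), ENNReal.ofReal (hd y0 y1 s0 s1 x) ∂(mu G) ≤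
      ENNReal.ofReal (CC d Λ CJ CA c1 q0) * ((∫⁻ x in ball x' (8 * t),
        ENNReal.ofReal (dl a ν₁ ν₂ x) ∂(mu G)) + ENNReal.ofReal (t ^ d * J ^ 2)) := by
  have ht : 0 < t := hh.trans_le hht
  obtain ⟨hC1, hC2, hC3, hC4, hC5, hC6⟩ := CC_facts (d := d) hΛ hCJ hCA hc1 hq0
  obtain ⟨C, hCd⟩ : ∃ C : ℝ, C = CC d Λ CJ CA c1 q0 := ⟨_, rfl⟩
  rw [← hCd] at hC1 hC2 hC3 hC4 hC5 hC6 hys ⊢
  have hC0 : 0 < C := by linarith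
  have hCA0 : 0 < CA := by linarith
  have hysh : |y0| + |y1| + ‖s0‖ + ‖s1‖ ≤ h := by
    refine hys.trans ?_
    rw [div_le_iff₀ hC0]
    calc h = h * 1 := (mul_one _).symm
      _ ≤ h * C := by gcongr
  obtain ⟨-, -, -, hM4, hM5, -⟩ := hMUF d m G hG.memG
  have hsub6 : ball x' (6 * t) ⊆ ball 0 2 := (ball_subset_ball (by linarith)).trans hsub
  have hz14 : ‖zp x'‖ ≤ 1 / 4 := by linarith
  have hdl0 : ∀ y, 0 ≤ dl a ν₁ ν₂ y := fun y => ((hBTF d).1 a ν₁ ν₂ y hON).1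
  obtain ⟨hQI, hQE⟩ := hM5 (fun y => dl a ν₁ ν₂ y) (ball x' (8 * t)) ((‖x' - a‖ + 8 * t) ^ 2)
    (dl_cont a ν₁ ν₂).measurable measurableSet_ball hsub (by
      intro y hy'
      refine ⟨hdl0 y, ((hBTF d).1 a ν₁ ν₂ y hON).2.trans ?_⟩
      have h1 : ‖y - a‖ ≤ ‖x' - a‖ + 8 * t := by
        have h2 : y - a = (y - x') + (x' - a) := by abel
        rw [h2]
        refine (norm_add_le _ _).trans ?_
        rw [mem_ball, dist_eq_norm] at hy'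
        linarith
      exact pow_le_pow_left₀ (norm_nonneg _) h1 2)
  have hgeo : ∀ x ∈ ball x' (6 * t), ‖zp x - zp x'‖ ≤ 8 * t ∧
      hd y0 y1 s0 s1 x ≤ 128 * t ^ 2 :=
    fun x hx => hd_le ht ht8 (hysh.trans hht) hx' hz14 hx
  obtain ⟨hAI, hAE⟩ := hM5 (fun y => hd y0 y1 s0 s1 y) (ball x' (6 * t)) (128 * t ^ 2)
    (hd_cont y0 y1 s0 s1).measurable measurableSet_ball hsub6
    (fun x hx => ⟨hd_nn y0 y1 s0 s1 x, (hgeo x hx).2⟩)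
  obtain ⟨q, hq⟩ : ∃ q : ℝ, q = ∫ x in ball x' (8 * t), dl a ν₁ ν₂ x * nsq (G x) := ⟨_, rfl⟩
  rw [← hq] at hQE
  have hqnn : 0 ≤ q := by
    rw [hq]
    exact integral_nonneg fun x => mul_nonneg (hdl0 x) (nsq_nn _)
  obtain ⟨hI6, hI6e⟩ := hM4 (ball x' (6 * t)) measurableSet_ball hsub6
  have hd6 : ∫ x in ball x' (6 * t), nsq (G x) ≤ Λ * (6 * t) ^ d := by
    rw [← hI6e]
    exact hG.den x' (6 * t) (by positivity) hsub6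
  have hd60 : 0 ≤ ∫ x in ball x' (6 * t), nsq (G x) := integral_nonneg fun x => nsq_nn _
  -- the trivial bound
  have htriv : ∫ x in ball x' (6 * t), hd y0 y1 s0 s1 x * nsq (G x) ≤
      128 * t ^ 2 * (Λ * (6 * t) ^ d) := by
    have a1 : ∫ x in ball x' (6 * t), hd y0 y1 s0 s1 x * nsq (G x) ≤
        ∫ x in ball x' (6 * t), 128 * t ^ 2 * nsq (G x) := by
      refine setIntegral_mono_on hAI (hI6.const_mul _) measurableSet_ball fun x hx => ?_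
      exact mul_le_mul_of_nonneg_right (hgeo x hx).2 (nsq_nn _)
    rw [integral_const_mul] at a1
    exact a1.trans (mul_le_mul_of_nonneg_left hd6 (by positivity))
  rw [hAE, hQE, ← ENNReal.ofReal_add hqnn (by positivity), ← ENNReal.ofReal_mul hC0.le]
  refine ENNReal.ofReal_le_ofReal ?_
  rcases le_or_gt (c1 * t) J with hcJ | hcJ
  · exact caseJ hΛ hc1 ht hqnn hC0.le hC5 hcJ htriv
  rcases le_or_gt (q0 * t ^ (d + 2)) q with hcq | hcq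
  · exact caseQ hΛ hq0 ht hC0.le hC6 hcq htriv
  -- windows
  have hJc : J ≤ c / 2 := by
    calc J ≤ c1 * t := hcJ.le
      _ ≤ c1 * (1 / 8) := by gcongr
      _ ≤ c / 2 := by linarith
  obtain ⟨η, hη⟩ : ∃ η : ℝ, η = √(CJ * 4 ^ d * q / t ^ d) + CJ * J := ⟨_, rfl⟩
  have hη0 : 0 ≤ CJ * J := mul_nonneg hCJ hJ
  have hηs : 0 ≤ √(CJ * 4 ^ d * q / t ^ d) := Real.sqrt_nonneg _
  have hηJ : CJ * J ≤ η := by rw [hη]; linarith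
  have hwin : ∀ z₀ : E d, ‖z₀ - zp x'‖ ≤ t → ‖z₀‖ ≤ R → ∃ c₀ : V d,
      hd y0 y1 s0 s1 c₀ ≤ η ^ 2 ∧ ‖zp c₀ - z₀‖ ≤ η ∧
      |⟪c₀ - a, ν₁⟫| ≤ η ∧ |⟪c₀ - a, ν₂⟫| ≤ η := by
    intro z₀ hz₁ hz₂
    obtain ⟨c₀, b1, b2, b3⟩ := hJEN m G hG.memG h R J mb y0 y1 s0 s1 hh hh2 hJ hJc hmb hR
      (by linarith) hCen z₀ (t / 4) (by linarith) (by linarith) hz₂
    refine ⟨c₀, b1.trans (pow_le_pow_left₀ hη0 hηJ 2), b2.trans hηJ, ?_⟩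
    have b4 : ENNReal.ofReal (dl a ν₁ ν₂ c₀) ≤ ENNReal.ofReal (CJ / (t / 4) ^ d * q) := by
      rw [ENNReal.ofReal_mul (by positivity), ← hQE]
      refine (b3 a ν₁ ν₂ hON).trans ?_
      gcongr
      intro x hx
      exact sub_ball ht (by have := hx.1; linarith) hx' hx.2 hz₁
    have b5 : dl a ν₁ ν₂ c₀ ≤ CJ * 4 ^ d * q / t ^ d := by
      have b6 := (ENNReal.ofReal_le_ofReal_iff (by positivity)).1 b4
      refine b6.trans (le_of_eq ?_)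
      rw [div_pow]
      field_simp
    have b7 : ∀ u v : ℝ, u ^ 2 + v ^ 2 ≤ CJ * 4 ^ d * q / t ^ d → |u| ≤ η ∧ |v| ≤ η := by
      intro u v huv
      have b8 : u ^ 2 + v ^ 2 ≤ √(CJ * 4 ^ d * q / t ^ d) ^ 2 := by
        rw [Real.sq_sqrt (by positivity)]
        exact huv
      obtain ⟨b9, b10⟩ := sq_abs_le hηs b8
      rw [hη]
      constructor <;> linarith
    exact b7 _ _ b5
  have hz0 : ∃ c₀ : V d, hd y0 y1 s0 s1 c₀ ≤ η ^ 2 ∧ ‖zp c₀ - zp x'‖ ≤ η ∧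
      |⟪c₀ - a, ν₁⟫| ≤ η ∧ |⟪c₀ - a, ν₂⟫| ≤ η :=
    hwin (zp x') (by rw [sub_self, norm_zero]; exact ht.le) (by linarith)
  have hzi : ∀ i : Fin d, ∃ c₀ : V d, hd y0 y1 s0 s1 c₀ ≤ η ^ 2 ∧
      ‖zp c₀ - (zp x' + t • bv i)‖ ≤ η ∧ |⟪c₀ - a, ν₁⟫| ≤ η ∧ |⟪c₀ - a, ν₂⟫| ≤ η := by
    intro i
    have e1 : ‖t • (bv i : E d)‖ = t := by
      rw [norm_smul, Real.norm_eq_abs, abs_of_pos ht]
      simp [bv]
    refine hwin (zp x' + t • bv i) (by rw [add_sub_cancel_left, e1]) ?_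
    refine (norm_add_le _ _).trans ?_
    rw [e1]
    exact hx2
  obtain ⟨c₀, hc₀⟩ := hz0
  choose ci hci using hzi
  have hηle : CA * η ≤ t := by
    rw [hη]
    exact eta_le hCJ hCA hc1J hq0J ht hcJ.le hcq.le
  have hys' : |y0| + |y1| + ‖s0‖ + ‖s1‖ ≤ 1 / CA := by
    refine hys.trans ?_
    rw [div_le_div_iff₀ hC0 hCA0]
    calc h * CA ≤ 1 * C := mul_le_mul (by linarith) hC2 hCA0.le zero_le_one
      _ = 1 * C := rfl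
  obtain ⟨-, hmain⟩ := hALG a ν₁ ν₂ y0 y1 s0 s1 (fun o => o.elim c₀ ci) (zp x') t η hON ht
    (by linarith) (hη0.trans hηJ) hηle hys'
    (by
      rintro (_ | i)
      · exact hc₀.2.2
      · exact (hci i).2.2)
    (by
      rintro (_ | i)
      · exact hc₀.1
      · exact (hci i).1)
    hc₀.2.1 (fun i => (hci i).2.1)
  have hQI6 : IntegrableOn (fun x => dl a ν₁ ν₂ x * nsq (G x)) (ball x' (6 * t)) :=
    hQI.mono_set (ball_subset_ball (by linarith))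
  have a1 : ∫ x in ball x' (6 * t), hd y0 y1 s0 s1 x * nsq (G x) ≤
      ∫ x in ball x' (6 * t), (4 * (dl a ν₁ ν₂ x * nsq (G x)) + CA * η ^ 2 * nsq (G x)) := by
    refine setIntegral_mono_on hAI ((hQI6.const_mul _).add (hI6.const_mul _))
      measurableSet_ball fun x hx => ?_
    have := mul_le_mul_of_nonneg_right (hmain x (hgeo x hx).1) (nsq_nn (G x))
    linarith
  rw [integral_add (hQI6.const_mul _) (hI6.const_mul _), integral_const_mul,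
    integral_const_mul] at a1
  have a2 : ∫ x in ball x' (6 * t), dl a ν₁ ν₂ x * nsq (G x) ≤ q := by
    rw [hq]
    refine setIntegral_mono_set hQI ?_ (Eventually.of_forall (ball_subset_ball (by linarith)))
    exact Eventually.of_forall fun x => mul_nonneg (hdl0 x) (nsq_nn _)
  rw [hη] at a1
  exact fin3 hΛ hCJ hCA ht hqnn hJ a2 hd60 hd6 hC3 hC4 a1

theorem pf_CMP (hJEN : T_JEN) (hALG : Pool.Agent.H22.AN.T_ALG) (hMUF : T_MUF)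
    (hBTF : T_BTF) : T_CMP := by
  intro d Λ c hΛ hc
  obtain ⟨CJ, hCJ, hJ1⟩ := hJEN d c hc
  obtain ⟨CA, hCA, hA1⟩ := hALG d
  have hCA0 : 0 < CA := by linarith
  obtain ⟨c1, hc1⟩ : ∃ c1 : ℝ, c1 = min (4 * c) (1 / (2 * CA * (CJ + 1))) := ⟨_, rfl⟩
  obtain ⟨q0, hq0⟩ : ∃ q0 : ℝ, q0 = 1 / (4 * CA ^ 2 * (CJ + 1) * 4 ^ d) := ⟨_, rfl⟩
  have hc10 : 0 < c1 := by
    rw [hc1]
    exact lt_min (by positivity) (by positivity)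
  have hc1c : c1 ≤ 4 * c := by rw [hc1]; exact min_le_left _ _
  have hc1J : CJ * c1 ≤ 1 / (2 * CA) := by
    have e1 : c1 ≤ 1 / (2 * CA * (CJ + 1)) := by rw [hc1]; exact min_le_right _ _
    calc CJ * c1 ≤ (CJ + 1) * (1 / (2 * CA * (CJ + 1))) := by
          apply mul_le_mul (by linarith) e1 hc10.le (by positivity)
      _ = 1 / (2 * CA) := by field_simp
  have hq00 : 0 < q0 := by rw [hq0]; positivity
  have hq0J : CJ * 4 ^ d * q0 ≤ (1 / (2 * CA)) ^ 2 := by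
    calc CJ * 4 ^ d * q0 ≤ (CJ + 1) * 4 ^ d * q0 := by gcongr; linarith
      _ = (1 / (2 * CA)) ^ 2 := by
          rw [hq0]
          field_simp
          ring
  obtain ⟨hC1, -⟩ := CC_facts (d := d) hΛ hCJ hCA hc10 hq00
  refine ⟨CC d Λ CJ CA c1 q0, hC1, ?_⟩
  intro m G hG h R J mb y0 y1 s0 s1 hh hh2 hR hJ hmb hys hCen x' t hht ht8 hx' hx2 hsub
  have ht : 0 < t := hh.trans_le hht
  have hm := fun a ν₁ ν₂ hON => main hMUF hBTF hΛ hCJ hCA hc10 hq00 hc1c hc1J hq0J hA1 hJ1 m G hG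
    h R J mb y0 y1 s0 s1 hh hh2 hR hJ hmb hys hCen x' t hht ht8 hx' hx2 hsub a ν₁ ν₂ hON
  obtain ⟨C, hCd⟩ : ∃ C : ℝ, C = CC d Λ CJ CA c1 q0 := ⟨_, rfl⟩
  rw [← hCd] at hC1 hm ⊢
  have hC0 : 0 < C := by linarith
  obtain ⟨A, hA⟩ : ∃ A : ℝ≥0∞, A =
    ∫⁻ x in ball x' (6 * t), ENNReal.ofReal (hd y0 y1 s0 s1 x) ∂(mu G) := ⟨_, rfl⟩
  rw [← hA] at hm ⊢
  have hCne : ENNReal.ofReal C ≠ 0 := by
    rw [Ne, ENNReal.ofReal_eq_zero, not_le]; exact hC0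
  have hCnt : ENNReal.ofReal C ≠ ⊤ := ENNReal.ofReal_ne_top
  have ht3 : ENNReal.ofReal (t ^ (d + 2)) ≠ 0 := by
    rw [Ne, ENNReal.ofReal_eq_zero, not_le]; positivity
  have ht3t : ENNReal.ofReal (t ^ (d + 2)) ≠ ⊤ := ENNReal.ofReal_ne_top
  have key : (A / ENNReal.ofReal C - ENNReal.ofReal (t ^ d * J ^ 2)) /
      ENNReal.ofReal (t ^ (d + 2)) ≤ bt G x' t := by
    unfold bt
    refine le_iInf fun a => le_iInf fun ν₁ => le_iInf fun ν₂ => le_iInf fun hON => ?_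
    have h1 := hm a ν₁ ν₂ hON
    rw [ENNReal.ofReal_inv_of_pos (by positivity),
      mul_comm _ (∫⁻ y in ball x' (8 * t), ENNReal.ofReal (dl a ν₁ ν₂ y) ∂(mu G)),
      ← div_eq_mul_inv]
    refine ENNReal.div_le_div_right ?_ _
    rw [tsub_le_iff_right]
    refine ENNReal.div_le_of_le_mul' h1
  have h2 : A / ENNReal.ofReal C - ENNReal.ofReal (t ^ d * J ^ 2) ≤
      ENNReal.ofReal (t ^ (d + 2)) * bt G x' t := by
    have := mul_le_mul_right key (ENNReal.ofReal (t ^ (d + 2)))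
    rwa [ENNReal.mul_div_cancel ht3 ht3t] at this
  rw [tsub_le_iff_right] at h2
  have h3 := mul_le_mul_right h2 (ENNReal.ofReal C)
  rwa [ENNReal.mul_div_cancel hCne hCnt] at h3

end

end Pool.Agent.H13.ANC
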